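import Pool.Agent.MP_f6b137_pr.H74.Base

/-! The vectors of the model: size, comparison with the Chebyshev vectors, Bessel inequality. -/

namespace Pool.Agent.MP_f6b137_pr.H10

open Pool.Agent.MP_f6b137_pr.H74 Finset
open scoped Real RealInnerProductSpace

variable {D : ℕ}

lemma onf_blk {e : ℕ → ES D} {m B b : ℕ} (h : ONf e m) (hb : (b + 1) * B ≤ m) :
    ONf (fun i => e (b * B + i)) B := by
  intro j hj k hk
  have e1 : (b + 1) * B = b * B + B := by ring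
  rw [h _ (by omega) _ (by omega)]
  simp only [Nat.add_right_inj]

lemma half_le_sinc {s : ℝ} (hs : |s| ≤ 1 / 2) : 1 / 2 ≤ Real.sinc (π * s) := by
  have key : ∀ x : ℝ, 0 ≤ x → x ≤ π / 2 → 1 / 2 ≤ Real.sinc x := by
    intro x h0 h1
    rcases h0.eq_or_lt with rfl | h0
    · rw [Real.sinc_zero]; norm_num
    · rw [Real.sinc_of_ne_zero h0.ne', le_div_iff₀ h0]
      refine le_trans ?_ (Real.mul_le_sin h0.le h1)
      refine mul_le_mul_of_nonneg_right ?_ h0.le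
      rw [div_le_div_iff₀ two_pos Real.pi_pos]
      linarith [Real.pi_le_four]
  have hp := Real.pi_pos
  rcases le_total 0 s with h | h
  · rw [abs_of_nonneg h] at hs
    exact key _ (by positivity) (by nlinarith)
  · rw [abs_of_nonpos h] at hs
    rw [← Real.sinc_neg]
    exact key _ (by nlinarith) (by nlinarith)

lemma low (D B b : ℕ) (e : ℕ → ES D) (t : ℝ) (he : ONf e ((b + 1) * B)) (hB : 0 < B) (h0 : 0 ≤ t)
    (h1 : t ≤ B) : 1 / 2 ≤ ‖Vb e B b t‖ := by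
  have hn := (onf_blk he le_rfl).norm_sum (S := range B) (fun i hi => mem_range.1 hi) (sk t)
  obtain ⟨i, hi, hs⟩ : ∃ i : ℕ, i < B ∧ |t - i - 1 / 2| ≤ 1 / 2 := by
    rcases h1.eq_or_lt with h | h
    · refine ⟨B - 1, by omega, ?_⟩
      rw [Nat.cast_sub hB, h, Nat.cast_one]
      norm_num [abs_le]
    · refine ⟨⌊t⌋₊, (Nat.floor_lt h0).2 h, abs_le.2 ⟨?_, ?_⟩⟩
      · linarith [Nat.floor_le h0]
      · linarith [Nat.lt_floor_add_one t]
  have h2 : 1 / 2 ≤ sk t i := half_le_sinc hs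
  have h3 : sk t i ^ 2 ≤ ∑ i ∈ range B, sk t i ^ 2 :=
    single_le_sum (f := fun i => sk t i ^ 2) (fun _ _ => sq_nonneg _) (mem_range.2 hi)
  have h4 : (1 / 2 : ℝ) ^ 2 ≤ ‖Vb e B b t‖ ^ 2 := by
    unfold Vb
    rw [hn]
    nlinarith
  exact le_of_sq_le_sq_of_nonneg' h4
where
  le_of_sq_le_sq_of_nonneg' {x : ℝ} {v : ES D} (h : x ^ 2 ≤ ‖v‖ ^ 2) : x ≤ ‖v‖ :=
    le_of_sq_le_sq₀' h
  le_of_sq_le_sq₀' {x : ℝ} {v : ES D} (h : x ^ 2 ≤ ‖v‖ ^ 2) : x ≤ ‖v‖ :=
    (le_abs_self x).trans (by simpa using sq_le_sq.1 h)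

lemma near (hS : RowSINC) (ell : ℕ → ℕ → Polynomial ℝ) (D N B b : ℕ) (e : ℕ → ES D) (t R J : ℝ)
    (hc : Cheb ell) (he : ONf e N) (hb : (b + 1) * B ≤ N) (hR : 1 ≤ R) (hJ : 0 < J)
    (h1 : b * B + R ≤ t) (h2 : t + R ≤ (b + 1) * B) (h3 : J ≤ t) (h4 : t + J ≤ N) :
    ‖Vt ell e N t - Vb e B b (t - b * B)‖ ^ 2 ≤ 9 * B / J ^ 2 + 4 / R := by
  have e1 : (b + 1) * B = b * B + B := by ring
  have hsub : Ico (b * B) (b * B + B) ⊆ range N := fun i hi => by
    rw [mem_Ico] at hi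
    rw [mem_range]
    omega
  have hV : Vb e B b (t - b * B) =
      ∑ i ∈ range N, (if i ∈ Ico (b * B) (b * B + B) then sk t i else 0) • e i := by
    simp only [ite_smul, zero_smul]
    rw [sum_ite_mem, inter_eq_right.2 hsub, sum_Ico_eq_sum_range, Nat.add_sub_cancel_left]
    refine sum_congr rfl fun i _ => ?_
    congr 1
    unfold sk
    congr 1
    push_cast
    ring
  rw [hV, Vt, ← sum_sub_distrib]
  simp only [← sub_smul]
  rw [he.norm_sum fun i hi => mem_range.1 hi, ← sum_sdiff hsub, add_comm]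
  refine add_le_add ?_ ?_
  · refine (sum_le_card_nsmul _ _ ((3 / J) ^ 2) fun i hi => ?_).trans (le_of_eq ?_)
    · rw [if_pos hi, ← sq_abs]
      exact pow_le_pow_left₀ (abs_nonneg _) (hc.sinc N i t J (mem_range.1 (hsub hi)) hJ h3 h4) 2
    · rw [Nat.card_Ico, Nat.add_sub_cancel_left, nsmul_eq_mul]
      field_simp
      norm_num
  · have hd : ∀ i ∈ range N \ Ico (b * B) (b * B + B), R ≤ |t - 1 / 2 - i| := by
      intro i hi
      rw [mem_sdiff, mem_Ico, not_and_or, not_le, not_lt] at hi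
      rcases hi.2 with h | h
      · have : (i : ℝ) + 1 ≤ b * B := by exact_mod_cast h
        exact le_trans (by linarith) (le_abs_self _)
      · have : (b : ℝ) * B + B ≤ i := by exact_mod_cast h
        exact le_trans (by linarith) (neg_le_abs _)
    refine le_trans (sum_le_sum fun i hi => ?_) (hS.tail (t - 1 / 2) R _ hR hd)
    have h5 := hd i hi
    rw [mem_sdiff] at hi
    rw [if_neg hi.2, sub_zero]
    have h6 := hc.decay N i t (mem_range.1 hi.1) (by linarith) (by linarith)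
    rw [show t - i - 1 / 2 = t - 1 / 2 - i by ring] at h6
    have h7 : 0 < |t - 1 / 2 - i| := by linarith
    rw [← sq_abs, ← sq_abs (t - 1 / 2 - i), le_div_iff₀ (by positivity), ← mul_pow]
    exact pow_le_one₀ (by positivity) h6

lemma split {M : Type*} [AddCommMonoid M] (f : ℕ → M) (m B : ℕ) :
    ∑ j ∈ range (m * B), f j = ∑ b ∈ range m, ∑ r ∈ range B, f (b * B + r) := by
  induction m with
  | zero => simp
  | succ m ih => rw [add_mul, one_mul, sum_range_add, ih, sum_range_succ]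

lemma div_mod' {B b r : ℕ} (hr : r < B) : (b * B + r) / B = b ∧ (b * B + r) % B = r := by
  have hB : 0 < B := by omega
  constructor
  · rw [add_comm, Nat.add_mul_div_right _ _ hB, Nat.div_eq_of_lt hr, zero_add]
  · rw [add_comm, Nat.add_mul_mod_self_right, Nat.mod_eq_of_lt hr]

lemma one (hS : RowSINC) {B m : ℕ} {e : ℕ → ES D} (he : ONf e (m * B)) (a : ℕ → ℝ) (τ : ℝ) :
    ‖∑ j ∈ range (m * B), a j • Vb e B (j / B) ((j % B : ℕ) + τ)‖ ^ 2 ≤
      ∑ j ∈ range (m * B), a j ^ 2 := by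
  have h1 : ∑ j ∈ range (m * B), a j • Vb e B (j / B) ((j % B : ℕ) + τ) =
      ∑ n ∈ range (m * B), (∑ r ∈ range B, a (n / B * B + r) * sk (r + τ) (n % B)) • e n := by
    rw [split, split]
    refine sum_congr rfl fun b _ => ?_
    have h2 : ∀ r ∈ range B, a (b * B + r) • Vb e B ((b * B + r) / B) (((b * B + r) % B : ℕ) + τ) =
        ∑ i ∈ range B, (a (b * B + r) * sk (r + τ) i) • e (b * B + i) := by
      intro r hr
      obtain ⟨h3, h4⟩ := div_mod' (b := b) (mem_range.1 hr)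
      rw [h3, h4, Vb, smul_sum]
      simp only [smul_smul]
    rw [sum_congr rfl h2, sum_comm]
    refine sum_congr rfl fun i hi => ?_
    obtain ⟨h3, h4⟩ := div_mod' (b := b) (mem_range.1 hi)
    rw [h3, h4, sum_smul]
  rw [h1, he.norm_sum fun i hi => mem_range.1 hi, split, split]
  refine sum_le_sum fun b _ => le_trans (le_of_eq (sum_congr rfl fun i hi => ?_))
    (hS.bessel τ B (range B) fun r => a (b * B + r))
  obtain ⟨h3, h4⟩ := div_mod' (b := b) (mem_range.1 hi)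
  rw [h3, h4]

lemma ext_sum {M : Type*} [AddCommMonoid M] {J : Finset (ℕ × ℕ)} {n L : ℕ}
    (hJ : ∀ x ∈ J, x.1 < n ∧ x.2 < L) (F : ℕ × ℕ → M) :
    ∑ x ∈ J, F x = ∑ k ∈ range L, ∑ j ∈ range n, if (j, k) ∈ J then F (j, k) else 0 := by
  rw [sum_comm, ← sum_product' (f := fun j k => if (j, k) ∈ J then F (j, k) else 0)]
  simp only [Prod.mk.eta]
  rw [sum_ite_mem, inter_eq_right.2]
  intro x hx
  simpa using hJ x hx

lemma upper (hS : RowSINC) {B m L : ℕ} {e : ℕ → ES D} (he : ONf e (m * B)) {J : Finset (ℕ × ℕ)}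
    (hJ : ∀ x ∈ J, x.1 < m * B ∧ x.2 < L) (α : ℕ × ℕ → ℝ) (τ : ℕ → ℝ) :
    ‖∑ x ∈ J, α x • Vb e B (x.1 / B) ((x.1 % B : ℕ) + τ x.2)‖ ^ 2 ≤ L * ∑ x ∈ J, α x ^ 2 := by
  rw [ext_sum hJ, ext_sum hJ]
  refine (pow_le_pow_left₀ (norm_nonneg _) (norm_sum_le _ _) 2).trans
    (sq_sum_le_card_mul_sum_sq.trans ?_)
  rw [card_range]
  refine mul_le_mul_of_nonneg_left (sum_le_sum fun k _ => ?_) (Nat.cast_nonneg _)
  have h := one hS he (fun j => if (j, k) ∈ J then α (j, k) else 0) (τ k)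
  simp only [ite_smul, zero_smul, ite_pow, ne_eq, OfNat.ofNat_ne_zero, not_false_eq_true,
    zero_pow] at h
  exact h

lemma lower (hS : RowSINC) {B b m : ℕ} {e : ℕ → ES D} (he : ONf e m) (hb : (b + 1) * B ≤ m)
    {t t' R : ℝ} (hR : 1 ≤ R) (h1 : R ≤ t) (h2 : R ≤ t') (h3 : t + R ≤ B) (h4 : t' + R ≤ B)
    (x y : ℝ) : (1 - |Real.sinc (π * (t - t'))| - 2 / R) * (x ^ 2 + y ^ 2) ≤
      ‖x • Vb e B b t + y • Vb e B b t'‖ ^ 2 := by
  have ho := onf_blk he hb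
  have hi : ∀ s s' : ℝ, ⟪Vb e B b s, Vb e B b s'⟫ = ∑ i ∈ range B, sk s i * sk s' i :=
    fun s s' => ho.inner_sum_sum (fun i hi => mem_range.1 hi) _ _
  have g1 := abs_le.1 (hS.gram t t R B hR h1 h1 h3 h3)
  have g2 := abs_le.1 (hS.gram t' t' R B hR h2 h2 h4 h4)
  have g3 := hS.gram t t' R B hR h1 h2 h3 h4
  rw [← hi, sub_self, mul_zero, Real.sinc_zero] at g1 g2
  rw [← hi] at g3
  have g4 : |⟪Vb e B b t, Vb e B b t'⟫| ≤ |Real.sinc (π * (t - t'))| + 1 / R := by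
    have := abs_sub_abs_le_abs_sub ⟪Vb e B b t, Vb e B b t'⟫ (Real.sinc (π * (t - t')))
    linarith
  rw [norm_add_sq_real, real_inner_smul_left, real_inner_smul_right, norm_smul, norm_smul, mul_pow,
    mul_pow, ← real_inner_self_eq_norm_sq (Vb e B b t), ← real_inner_self_eq_norm_sq (Vb e B b t'),
    Real.norm_eq_abs, Real.norm_eq_abs, sq_abs, sq_abs]
  have e2 : 2 / R = 1 / R + 1 / R := by ring
  rw [e2]
  obtain ⟨g5, g6⟩ := abs_le.1 g4
  generalize ⟪Vb e B b t, Vb e B b t'⟫ = c at *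
  generalize |Real.sinc (π * (t - t'))| = s at *
  generalize 1 / R = ρ at *
  nlinarith [mul_nonneg (sq_nonneg x) (sub_nonneg.2 g1.1), mul_nonneg (sq_nonneg y) (sub_nonneg.2 g2.1),
    mul_nonneg (sq_nonneg (x + y)) (sub_nonneg.2 g5), mul_nonneg (sq_nonneg (x - y)) (sub_nonneg.2 g6)]

theorem rowMOD : OfMOD := by
  intro hS
  refine ⟨low, near hS, fun l => ?_⟩
  have hL : (0 : ℝ) < 2 ^ l := by positivity
  set s : ℝ := |Real.sinc (π * (1 / 2 ^ l))| with hs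
  have hs1 : s < 1 := by
    have h0 : π * (1 / 2 ^ l : ℝ) ≠ 0 := by positivity
    rw [hs, Real.sinc_of_ne_zero h0, abs_div, div_lt_one (abs_pos.2 h0)]
    exact Real.abs_sin_lt_abs h0
  have hδ : 0 < 1 - s := by linarith
  refine ⟨⌈4 / (1 - s)⌉₊ + 1, 4 * 2 ^ l / (1 - s), by positivity, ?_⟩
  intro R D B m e J hR he hJ α β
  have hR1 : (1 : ℝ) ≤ R := by exact_mod_cast (by omega : 1 ≤ R)
  have hR2 : 2 / (R : ℝ) ≤ (1 - s) / 2 := by
    have h1 : 4 / (1 - s) ≤ R := (Nat.le_ceil _).trans (by exact_mod_cast (by omega))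
    rw [div_le_iff₀ hδ] at h1
    rw [div_le_iff₀ (by linarith)]
    linarith
  have hJ' : ∀ x ∈ J, x.1 < m * B ∧ x.2 < 2 ^ l := fun x hx => ⟨(hJ x hx).1, (hJ x hx).2.2.2⟩
  have u1 := upper hS he hJ' α fun k => k / 2 ^ l
  have u2 := upper hS he hJ' β fun k => (k + 1) / 2 ^ l
  have hlow : ∀ x ∈ J, (1 - s) / 2 * (α x ^ 2 + β x ^ 2) ≤
      ‖α x • Vb e B (x.1 / B) ((x.1 % B : ℕ) + x.2 / 2 ^ l) +
        β x • Vb e B (x.1 / B) ((x.1 % B : ℕ) + (x.2 + 1) / 2 ^ l)‖ ^ 2 := by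
    intro x hx
    obtain ⟨a1, a2, a3, a4⟩ := hJ x hx
    have hb : (x.1 / B + 1) * B ≤ m * B :=
      Nat.mul_le_mul_right _ (Nat.div_lt_of_lt_mul (by rwa [mul_comm]))
    have b2 : (R : ℝ) ≤ (x.1 % B : ℕ) := by exact_mod_cast a2
    have b3 : ((x.1 % B : ℕ) : ℝ) + R + 1 ≤ B := by exact_mod_cast a3
    have b4 : ((x.2 : ℝ) + 1) / 2 ^ l ≤ 1 := by
      rw [div_le_one hL]
      exact_mod_cast a4
    have b5 : (0 : ℝ) ≤ x.2 / 2 ^ l := by positivity
    have b6 : (x.2 : ℝ) / 2 ^ l ≤ (x.2 + 1) / 2 ^ l := by gcongr; linarith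
    refine le_trans ?_ (lower hS he hb hR1 (by linarith) (by linarith) (by linarith) (by linarith)
      (α x) (β x))
    have e1 : π * (((x.1 % B : ℕ) : ℝ) + x.2 / 2 ^ l - ((x.1 % B : ℕ) + (x.2 + 1) / 2 ^ l)) =
        -(π * (1 / 2 ^ l)) := by ring
    rw [e1, Real.sinc_neg, ← hs]
    exact mul_le_mul_of_nonneg_right (by linarith) (by positivity)
  have h5 := sum_le_sum hlow
  rw [← mul_sum, sum_add_distrib] at h5
  rw [sum_add_distrib]
  push_cast at u1 u2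
  refine le_trans (pow_le_pow_left₀ (norm_nonneg _) (norm_add_le _ _) 2) ?_
  refine le_trans ?_ (mul_le_mul_of_nonneg_left h5 (by positivity))
  have e2 : ∀ z : ℝ, 4 * 2 ^ l / (1 - s) * ((1 - s) / 2 * z) = 2 * (2 ^ l * z) := by
    intro z
    field_simp
    norm_num
  rw [e2, mul_add]
  refine le_trans ?_ (mul_le_mul_of_nonneg_left (add_le_add u1 u2) zero_le_two)
  exact add_pow_le' _ _
where
  add_pow_le' (a b : ℝ) : (a + b) ^ 2 ≤ 2 * (a ^ 2 + b ^ 2) := by nlinarith [sq_nonneg (a - b)]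

end Pool.Agent.MP_f6b137_pr.H10
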